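import Pool.Agent.Helper38.EC.GoalsE1

/-!
# MP_ecc237_nt, (E.1), packet RBS
-/

set_option autoImplicit false

open MeasureTheory Filter Topology Set

namespace Pool.Agent.Helper89.EC.E_RBS

open EC237 EC237.DX

/-- the prefactor -/
noncomputable def cc (w : ℂ) (s : ℤ × ℤ) : ℂ :=
  if InCl 0 s then -(2 / 3) * w ^ 3 * nI w s else 0

/-- first factor -/
noncomputable def uu (w : ℂ) (s k : ℤ × ℤ) : ℂ :=
  if InCl 1 k ∧ InCl 5 (s - k) then xc w 2 1 (-1) k (s - k) else 0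

/-- second factor -/
noncomputable def vv (w : ℂ) (s k : ℤ × ℤ) : ℂ :=
  if InCl 5 k ∧ InCl 1 (-s - k) then xc w 0 0 0 k (-s - k) else 0

theorem cls (p : Tri) : ClT 1 5 5 p ↔ (InCl 0 (p.1 + p.2.1) ∧
    (InCl 1 p.1 ∧ InCl 5 (p.1 + p.2.1 - p.1)) ∧
      (InCl 5 p.2.2 ∧ InCl 1 (-(p.1 + p.2.1) - p.2.2))) := by
  simp only [ClT, InCl, Prod.fst_add, Prod.snd_add, Prod.fst_sub, Prod.snd_sub, Prod.fst_neg,
    Prod.snd_neg]
  omega

theorem clne (p : Tri) (h : ClT 1 5 5 p) : p.1 ≠ 0 ∧ p.2.1 ≠ 0 ∧ p.2.2 ≠ 0 ∧ k4 p ≠ 0 := by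
  have h' := (cls p).1 h
  simp only [ClT, InCl, Prod.fst_add, Prod.snd_add, Prod.fst_sub, Prod.snd_sub, Prod.fst_neg,
    Prod.snd_neg] at h h'
  refine ⟨?_, ?_, ?_, ?_⟩ <;> intro h0
  · rw [h0] at h; simp at h
  · rw [h0] at h; simp at h
  · rw [h0] at h; simp at h
  · have h1 := congrArg Prod.fst h0
    have h2 := congrArg Prod.snd h0
    simp only [k4, Prod.fst_add, Prod.snd_add, Prod.fst_neg, Prod.snd_neg, Prod.fst_zero,
      Prod.snd_zero] at h1 h2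
    omega

theorem term (w : ℂ) (hX : G_XC) (p : Tri) :
    famB (fun v1 v2 v3 v4 => PowerSeries.coeff 2 (Qs w v1 v2 v3 v4)) p =
      cc w (p.1 + p.2.1) * (uu w (p.1 + p.2.1) p.1 * vv w (p.1 + p.2.1) p.2.2) := by
  obtain ⟨-, -, -, -, h5, -, h7, -⟩ := hX w
  have e1 : p.1 + p.2.1 - p.1 = p.2.1 := by abel
  have e2 : -(p.1 + p.2.1) - p.2.2 = k4 p := by unfold k4; abel
  by_cases h : ClT 1 5 5 p
  · obtain ⟨a1, a2, a3⟩ := (cls p).1 h
    unfold famB cc uu vv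
    rw [if_pos h, if_pos a1, if_pos a2, if_pos a3, e1, e2]
    have := h7 1 0 p.1 p.2.1 p.2.2 (k4 p)
    simp only [neg_zero] at this
    beta_reduce
    rw [this, h5 2 _ _ (by norm_num), h5 1 _ _ (by norm_num)]
    ring
  · unfold famB
    rw [if_neg h]
    unfold cc uu vv
    by_cases a1 : InCl 0 (p.1 + p.2.1)
    · by_cases a2 : InCl 1 p.1 ∧ InCl 5 (p.1 + p.2.1 - p.1)
      · by_cases a3 : InCl 5 p.2.2 ∧ InCl 1 (-(p.1 + p.2.1) - p.2.2)
        · exact absurd ((cls p).2 ⟨a1, a2, a3⟩) h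
        · rw [if_neg a3]; simp
      · rw [if_neg a2]; simp
    · rw [if_neg a1]; simp

theorem thm (hF : G_FUB) (hX : G_XC) (hS : G_SYM) (hP : G_PS) : EC237.DX.G_RBS := by
  intro y hy
  have hw : (y : ℂ) ≠ 0 := by exact_mod_cast hy.ne'
  obtain ⟨-, -, -, h4, h5, -, h7, -, h9, -⟩ := hX (y : ℂ)
  obtain ⟨-, -, -, -, s5, -⟩ := hS y hy
  have hterm := term (y : ℂ) hX
  -- summability
  have hsum : Summable (fun p : Tri => cc y (p.1 + p.2.1) *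
      (uu y (p.1 + p.2.1) p.1 * vv y (p.1 + p.2.1) p.2.2)) := by
    have hps := (hP y hy 2 0 0 rfl 1 (-1) 0 0 0 (by norm_num) (by norm_num) (by norm_num)
      (by norm_num) (by norm_num)).1
    refine Summable.of_norm_bounded (hps.mul_left ‖-(2 / 3) * (y:ℂ) ^ 3‖) fun p => ?_
    rw [← hterm p]
    by_cases h : ClT 1 5 5 p
    · unfold famB
      rw [if_pos h, if_pos (clne p h), h9]
      have := h7 1 0 p.1 p.2.1 p.2.2 (k4 p)
      simp only [neg_zero] at this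
      beta_reduce
      rw [this, h5 2 _ _ (by norm_num), h5 1 _ _ (by norm_num), ← norm_mul]
      apply le_of_eq
      congr 1
      ring
    · unfold famB
      rw [if_neg h, norm_zero]
      split_ifs <;> positivity
  obtain ⟨f1, f2⟩ := (hF (cc y) (uu y) (vv y)).1 hsum
  have hu : ∀ s, ∑' k, uu (y:ℂ) s k = Es (y:ℂ) 2 s := fun s => rfl
  have hv : ∀ s, ∑' k, vv (y:ℂ) s k = Es (y:ℂ) 0 s := by
    intro s
    have e1 : ∑' k, vv (y:ℂ) s k = cs (y:ℂ) 0 5 1 0 0 (-s) := rfl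
    rw [e1, s5 0 5 1 1 5 0 0 s (by norm_num) (by norm_num)]
    unfold Es cs
    refine tsum_congr fun k => ?_
    rw [h4 (-0) (-0), h4 1 (-1)]
  have hc : ∀ s, cc (y:ℂ) s * ((∑' k, uu (y:ℂ) s k) * ∑' k, vv (y:ℂ) s k) =
      -(2 / 3) * (y:ℂ) ^ 3 * e1B (y:ℂ) s := by
    intro s
    rw [hu, hv]
    unfold cc e1B
    split_ifs <;> ring
  have hfun : (fun s => cc (y:ℂ) s * ((∑' k, uu (y:ℂ) s k) * ∑' k, vv (y:ℂ) s k)) =
      fun s => -(2 / 3) * (y:ℂ) ^ 3 * e1B (y:ℂ) s := funext hc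
  have hK : -(2 / 3) * (y:ℂ) ^ 3 ≠ 0 := mul_ne_zero (by norm_num) (pow_ne_zero _ hw)
  have hfam : famB (fun v1 v2 v3 v4 => PowerSeries.coeff 2 (Qs (y:ℂ) v1 v2 v3 v4)) =
      fun p : Tri => cc y (p.1 + p.2.1) *
      (uu y (p.1 + p.2.1) p.1 * vv y (p.1 + p.2.1) p.2.2) := funext hterm
  rw [hfun] at f1 f2
  refine ⟨?_, (summable_mul_left_iff hK).1 f1, ?_⟩
  · rw [hfam]; exact hsum
  · rw [hfam, f2, tsum_mul_left]

end Pool.Agent.Helper89.EC.E_RBS
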