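import Pool.Agent.Helper23.EC.EGoals
import Pool.Agent.Helper63.EC.D_B4

/-!
# MP_ecc237_nt, Part E, packet EA1
-/

set_option autoImplicit false

open MeasureTheory Filter Topology Set

namespace Pool.Agent.Helper89.EC.E_EA1

open EC237

theorem As0 (w : ℂ) (a : ℤ) : As w ((0 : ℤ × ℤ), a) = 0 := by
  unfold As gser KA
  ext p
  simp

theorem Bs0 (w : ℂ) (a : ℤ) : Bs w ((0 : ℤ × ℤ), a) = 0 := by
  unfold Bs gser KB
  ext p
  simp

theorem thm (_hA1 : EC237.A1) (_hB1 : EC237.B1) (hB2 : EC237.B2) : EC237.EA1 := by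
  intro y hy c c' a a' j s ha ha' hj hs
  obtain ⟨C, hC, hB⟩ := hB2 y hy
  have hw : (y : ℂ) ∈ Bd y := Metric.mem_ball_self (by positivity)
  obtain ⟨h1, -⟩ := hB (y : ℂ) hw
  have hpw := Pool.Agent.Helper63.EC.D_B4.pw_sum
  have hrk : 0 ≤ rk s := Real.sqrt_nonneg _
  set D : ℝ := C * rk s ^ (1 / 2 : ℝ) + C * rk s ^ (-(1 / 2) : ℝ) + C * rk s ^ (-1 : ℝ) with hD
  have p1 : 0 ≤ C * rk s ^ (1 / 2 : ℝ) := mul_nonneg hC.le (Real.rpow_nonneg hrk _)
  have p2 : 0 ≤ C * rk s ^ (-(1 / 2) : ℝ) := mul_nonneg hC.le (Real.rpow_nonneg hrk _)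
  have p3 : 0 ≤ C * rk s ^ (-1 : ℝ) := mul_nonneg hC.le (Real.rpow_nonneg hrk _)
  have hD0 : 0 ≤ D := by positivity
  have hpn : ∀ k, 0 ≤ pw k := Pool.Agent.Helper63.EC.D_B4.pw_nonneg
  have hmaj : Summable (fun k : ℤ × ℤ => D * (pw k + pw (s - k))) := by
    refine (hpw.add ?_).mul_left D
    have := (Equiv.subLeft s).summable_iff.2 hpw
    exact this
  refine Summable.of_norm_bounded hmaj fun k => ?_
  have hpos : 0 ≤ pw k + pw (s - k) := add_nonneg (hpn _) (hpn _)
  by_cases hcl : InCl c k ∧ InCl c' (s - k)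
  · rw [if_pos hcl]
    by_cases hk : k = 0
    · subst hk
      have : XX (y:ℂ) ((0:ℤ × ℤ), a) (s - 0, a') = 0 := by
        unfold XX; rw [As0, Bs0]; simp
      rw [this]
      simp only [map_zero, norm_zero]
      positivity
    · by_cases hk2 : s - k = 0
      · rw [hk2]
        have : XX (y:ℂ) (k, a) ((0:ℤ × ℤ), a') = 0 := by
          unfold XX; rw [As0, Bs0]; simp
        rw [this]
        simp only [map_zero, norm_zero]
        exact mul_nonneg hD0 (by rw [← hk2]; exact hpos)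
      · have hsum : k + (s - k) = s := by abel
        obtain ⟨b0, b1, b2⟩ := h1 (k, a) (s - k, a') ha ha' hk hk2 (by simpa using hs)
        simp only [hsum] at b0 b1 b2
        interval_cases j
        · refine b0.trans (mul_le_mul_of_nonneg_right ?_ hpos)
          rw [hD]; linarith
        · refine b1.trans (mul_le_mul_of_nonneg_right ?_ hpos)
          rw [hD]; linarith
        · refine b2.trans (mul_le_mul_of_nonneg_right ?_ hpos)
          rw [hD]; linarith
  · rw [if_neg hcl, norm_zero]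
    positivity

end Pool.Agent.Helper89.EC.E_EA1
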