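import Pool.Agent.Helper38.EC.Goals

/-!
# MP_ecc237_nt, Part I, packet JY: the Bessel functions on the negative imaginary axis
-/

set_option autoImplicit false

open MeasureTheory Filter Topology Set Complex

namespace Pool.Agent.Helper89.EC.I_JY

open EC237 EC237.PI

theorem ic_eq (hB : G_SERB) (η : ℝ) : Ic (-(I * η)) = (Jr η : ℂ) := by
  apply Complex.ext
  · rfl
  · rw [(hB.2 η).2.2.1, Complex.ofReal_im]

theorem sc_eq (hB : G_SERB) (η : ℝ) : Sc (-(I * η)) = ((Sc (-(I * η))).re : ℂ) := by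
  apply Complex.ext
  · rfl
  · rw [(hB.2 η).2.2.2, Complex.ofReal_im]

theorem ell_eq {η : ℝ} (hη : 0 < η) : ell (-(I * η)) = (Ld η : ℂ) + I * (Real.pi / 2) := by
  unfold ell Ld
  have h1 : -(I * (η : ℂ)) / 2 = ((η / 2 : ℝ) : ℂ) * (-I) := by
    push_cast
    ring
  rw [h1, Complex.log_ofReal_mul (by positivity) (neg_ne_zero.2 I_ne_zero), Complex.log_neg_I]
  push_cast
  ring

theorem kc_eq (hB : G_SERB) {η : ℝ} (hη : 0 < η) :
    Kc (-(I * η)) = (Yr η : ℂ) + I * (Real.pi / 2) * (Jr η : ℂ) := by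
  unfold Kc
  rw [ell_eq hη, ic_eq hB, sc_eq hB]
  unfold Yr
  push_cast
  ring

theorem norm_z {η : ℝ} (hη : 0 < η) : ‖-(I * (η : ℂ))‖ = η := by
  rw [norm_neg, norm_mul, Complex.norm_I, one_mul, Complex.norm_real, Real.norm_of_nonneg hη.le]

theorem re_z (η : ℝ) : (-(I * (η : ℂ))).re = 0 := by simp

theorem im_z (η : ℝ) : (-(I * (η : ℂ))).im = -η := by simp

theorem Ld_bd {η : ℝ} (hη : 0 < η) (hη1 : η ≤ 1) : |Ld η| ≤ 49 * η ^ (-(1 / 24) : ℝ) := by
  have hq : 1 ≤ η ^ (-(1 / 24) : ℝ) :=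
    Real.one_le_rpow_of_pos_of_le_one_of_nonpos hη hη1 (by norm_num)
  have hg1 := Real.one_half_lt_eulerMascheroniConstant
  have hg2 := Real.eulerMascheroniConstant_lt_two_thirds
  have h1 : Real.log (η / 2) = -Real.log (2 / η) := by
    rw [← Real.log_inv, inv_div]
  have h2 : 0 ≤ Real.log (2 / η) := by
    apply Real.log_nonneg
    rw [le_div_iff₀ hη]
    linarith
  have h3 : Real.log (2 / η) ≤ (2 / η) ^ (1 / 24 : ℝ) / (1 / 24) :=
    Real.log_le_rpow_div (by positivity) (by norm_num)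
  have h4 : (2 / η) ^ (1 / 24 : ℝ) ≤ 2 * η ^ (-(1 / 24) : ℝ) := by
    rw [Real.div_rpow (by norm_num) hη.le, div_eq_mul_inv, ← Real.rpow_neg hη.le]
    refine mul_le_mul_of_nonneg_right ?_ (by positivity)
    calc (2 : ℝ) ^ (1 / 24 : ℝ) ≤ (2 : ℝ) ^ (1 : ℝ) :=
          Real.rpow_le_rpow_of_exponent_le (by norm_num) (by norm_num)
      _ = 2 := Real.rpow_one 2
  unfold Ld
  rw [h1, neg_neg, abs_le]
  constructor
  · linarith
  · have : (2 / η) ^ (1 / 24 : ℝ) / (1 / 24) = 24 * (2 / η) ^ (1 / 24 : ℝ) := by ring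
    rw [this] at h3
    linarith

theorem thm (hA : G_SERA) (hB : G_SERB) (hK : G_KBD) (hI : G_IBD) : G_JY := by
  obtain ⟨C, hC⟩ := hI
  refine ⟨fun η hη => ⟨ic_eq hB η, kc_eq hB hη, ell_eq hη⟩, ⟨max C (10 ^ 16), ?_, ?_⟩, ?_, ?_⟩
  · intro η hη
    have hη0 : 0 < η := by linarith
    have hs : 0 < Real.sqrt η := Real.sqrt_pos.2 hη0
    have hz : -(I * (η : ℂ)) ≠ 0 := by
      rw [← norm_ne_zero_iff, norm_z hη0]
      exact hη0.ne'
    constructor
    · rw [le_div_iff₀ hs]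
      have h1 := hC (-(I * (η : ℂ))) ⟨(re_z η).ge, by rw [im_z]; linarith, hz⟩
      rw [norm_z hη0, re_z, Real.exp_zero, mul_one, ic_eq hB, Complex.norm_real,
        Real.norm_eq_abs] at h1
      exact h1.trans (le_max_left _ _)
    · rw [le_div_iff₀ hs]
      have h1 := hK (-(I * (η : ℂ))) (re_z η).ge hz
      rw [norm_z hη0, re_z, neg_zero, Real.exp_zero, mul_one] at h1
      have h2 : |Yr η| ≤ ‖Kc (-(I * (η : ℂ)))‖ := by
        have h3 := Complex.abs_re_le_norm (Kc (-(I * (η : ℂ))))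
        rw [kc_eq hB hη0] at h3 ⊢
        have h4 : ((Yr η : ℂ) + I * (Real.pi / 2) * (Jr η : ℂ)).re = Yr η := by
          simp
        rwa [h4] at h3
      calc |Yr η| * Real.sqrt η ≤ ‖Kc (-(I * (η : ℂ)))‖ * Real.sqrt η :=
            mul_le_mul_of_nonneg_right h2 hs.le
        _ ≤ 2 := h1
        _ ≤ max C (10 ^ 16) := le_trans (by norm_num) (le_max_right _ _)
  · intro η hη hη1
    have hM : (10 : ℝ) ^ 16 ≤ max C (10 ^ 16) := le_max_right _ _
    set q : ℝ := η ^ (-(1 / 24) : ℝ) with hqdef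
    have hq : 1 ≤ q := Real.one_le_rpow_of_pos_of_le_one_of_nonpos hη hη1 (by norm_num)
    have hS := hB.1 (-(I * (η : ℂ))) (by rw [norm_z hη]; exact hη1)
    rw [norm_z hη] at hS
    have hx1 : |Jr η - 1| ≤ η ^ 2 := by
      have h1 := hS.1
      rw [ic_eq hB] at h1
      have h2 : ((Jr η : ℂ) - 1) = ((Jr η - 1 : ℝ) : ℂ) := by push_cast; ring
      rwa [h2, Complex.norm_real, Real.norm_eq_abs] at h1
    have hs1 : |(Sc (-(I * (η : ℂ)))).re| ≤ η ^ 2 := (Complex.abs_re_le_norm _).trans hS.2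
    have hη2 : η ^ 2 ≤ 1 := by nlinarith
    have hx2 : |Jr η| ≤ 2 := by
      have h1 : |Jr η| ≤ |Jr η - 1| + |(1 : ℝ)| := by
        have := abs_add_le (Jr η - 1) 1
        simpa using this
      rw [abs_one] at h1
      linarith
    have hL := Ld_bd hη hη1
    rw [← hqdef] at hL
    have hy1 : |Yr η - Ld η * Jr η| ≤ η ^ 2 := by
      unfold Yr
      rw [add_sub_cancel_left]
      exact hs1
    have hy2 : |Yr η| ≤ 99 * q := by
      have h1 : |Yr η| ≤ |Yr η - Ld η * Jr η| + |Ld η * Jr η| := by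
        have := abs_add_le (Yr η - Ld η * Jr η) (Ld η * Jr η)
        simpa using this
      rw [abs_mul] at h1
      have h2 : |Ld η| * |Jr η| ≤ (49 * q) * 2 :=
        mul_le_mul hL hx2 (abs_nonneg _) (by positivity)
      linarith
    have hyL : |Yr η - Ld η| ≤ 50 * q * η ^ 2 := by
      have h1 : |Yr η - Ld η| ≤ |Yr η - Ld η * Jr η| + |Ld η * (Jr η - 1)| := by
        have := abs_add_le (Yr η - Ld η * Jr η) (Ld η * (Jr η - 1))
        have h2 : Yr η - Ld η * Jr η + Ld η * (Jr η - 1) = Yr η - Ld η := by ring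
        rwa [h2] at this
      rw [abs_mul] at h1
      have h2 : |Ld η| * |Jr η - 1| ≤ (49 * q) * η ^ 2 :=
        mul_le_mul hL hx1 (abs_nonneg _) (by positivity)
      have h3 : η ^ 2 ≤ q * η ^ 2 := le_mul_of_one_le_left (by positivity) hq
      linarith
    refine ⟨by linarith, ?_, ?_⟩
    · calc |Yr η| ≤ 99 * q := hy2
        _ ≤ max C (10 ^ 16) * q := mul_le_mul_of_nonneg_right (le_trans (by norm_num) hM)
            (by positivity)
    · intro j hj
      have hq6 : q ^ 6 * η ^ 2 ≤ η ^ (1 / 2 : ℝ) := by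
        have h1 : q ^ 6 = η ^ (-(1 / 4) : ℝ) := by
          rw [hqdef, ← Real.rpow_natCast, ← Real.rpow_mul hη.le]
          norm_num
        rw [h1, ← Real.rpow_natCast η 2, ← Real.rpow_add hη]
        exact Real.rpow_le_rpow_of_exponent_ge hη hη1 (by norm_num)
      have hpow : ∀ m : ℕ, m ≤ 6 → ∀ a : ℝ, 1 ≤ a → a ^ m ≤ a ^ 6 := fun m hm a ha =>
        pow_le_pow_right₀ ha hm
      have hpow5 : ∀ m : ℕ, m ≤ 6 → ∀ a : ℝ, 1 ≤ a → a ^ (m - 1) ≤ a ^ 5 := fun m hm a ha =>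
        pow_le_pow_right₀ ha (by omega)
      have e1 : |Yr η ^ j - Ld η ^ j| ≤ 300 * (99 : ℝ) ^ 5 * (q ^ 6 * η ^ 2) := by
        have h1 := abs_pow_sub_pow_le (Yr η) (Ld η) j
        have h2 : max |Yr η| |Ld η| ≤ 99 * q := max_le hy2 (hL.trans (by linarith))
        have h3 : max |Yr η| |Ld η| ^ (j - 1) ≤ (99 * q) ^ 5 :=
          (pow_le_pow_left₀ (le_max_of_le_left (abs_nonneg _)) h2 _).trans
            (hpow5 j hj _ (by linarith))
        have h4 : (j : ℝ) ≤ 6 := by exact_mod_cast hj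
        calc |Yr η ^ j - Ld η ^ j| ≤ |Yr η - Ld η| * j * max |Yr η| |Ld η| ^ (j - 1) := h1
          _ ≤ (50 * q * η ^ 2) * 6 * (99 * q) ^ 5 := by
              refine mul_le_mul (mul_le_mul hyL h4 (by positivity) (by positivity)) h3
                (by positivity) (by positivity)
          _ = 300 * (99 : ℝ) ^ 5 * (q ^ 6 * η ^ 2) := by ring
      have e2 : |Jr η ^ (6 - j) - 1| ≤ 192 * η ^ 2 := by
        have h1 := abs_pow_sub_pow_le (Jr η) 1 (6 - j)
        rw [one_pow, abs_one] at h1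
        have h2 : max |Jr η| 1 ≤ 2 := max_le hx2 (by norm_num)
        have h3 : max |Jr η| 1 ^ (6 - j - 1) ≤ 2 ^ 5 :=
          (pow_le_pow_left₀ (le_max_of_le_left (abs_nonneg _)) h2 _).trans
            (hpow5 (6 - j) (by omega) _ (by norm_num))
        have h4 : ((6 - j : ℕ) : ℝ) ≤ 6 := by exact_mod_cast (by omega : 6 - j ≤ 6)
        calc |Jr η ^ (6 - j) - 1| ≤ |Jr η - 1| * ((6 - j : ℕ) : ℝ) *
              max |Jr η| 1 ^ (6 - j - 1) := h1
          _ ≤ η ^ 2 * 6 * 2 ^ 5 := by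
              refine mul_le_mul (mul_le_mul hx1 h4 (by positivity) (by positivity)) h3
                (by positivity) (by positivity)
          _ = 192 * η ^ 2 := by ring
      have e3 : |Jr η ^ (6 - j)| ≤ 64 := by
        rw [abs_pow]
        calc |Jr η| ^ (6 - j) ≤ 2 ^ (6 - j) := pow_le_pow_left₀ (abs_nonneg _) hx2 _
          _ ≤ 2 ^ 6 := hpow _ (by omega) _ (by norm_num)
          _ = 64 := by norm_num
      have e4 : |Ld η ^ j| ≤ (49 : ℝ) ^ 6 * q ^ 6 := by
        rw [abs_pow]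
        calc |Ld η| ^ j ≤ (49 * q) ^ j := pow_le_pow_left₀ (abs_nonneg _) hL _
          _ ≤ (49 * q) ^ 6 := hpow _ hj _ (by linarith)
          _ = (49 : ℝ) ^ 6 * q ^ 6 := by ring
      have e5 : Jr η ^ (6 - j) * Yr η ^ j - Ld η ^ j =
          Jr η ^ (6 - j) * (Yr η ^ j - Ld η ^ j) + Ld η ^ j * (Jr η ^ (6 - j) - 1) := by ring
      rw [e5]
      calc |Jr η ^ (6 - j) * (Yr η ^ j - Ld η ^ j) + Ld η ^ j * (Jr η ^ (6 - j) - 1)|
          ≤ |Jr η ^ (6 - j)| * |Yr η ^ j - Ld η ^ j| + |Ld η ^ j| * |Jr η ^ (6 - j) - 1| := by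
            rw [← abs_mul, ← abs_mul]
            exact abs_add_le _ _
        _ ≤ 64 * (300 * (99 : ℝ) ^ 5 * (q ^ 6 * η ^ 2)) +
            ((49 : ℝ) ^ 6 * q ^ 6) * (192 * η ^ 2) := by
            refine add_le_add (mul_le_mul e3 e1 (abs_nonneg _) (by norm_num))
              (mul_le_mul e4 e2 (abs_nonneg _) (by positivity))
        _ = (64 * 300 * (99 : ℝ) ^ 5 + 192 * (49 : ℝ) ^ 6) * (q ^ 6 * η ^ 2) := by ring
        _ ≤ max C (10 ^ 16) * η ^ (1 / 2 : ℝ) := by
            refine mul_le_mul (le_trans (by norm_num) hM) hq6 (by positivity) ?_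
            exact le_trans (by norm_num) hM
  · have h1 : Continuous Jr := by
      unfold Jr
      exact Complex.continuous_re.comp (hA.1.continuous.comp (by fun_prop))
    exact h1.continuousOn
  · have h1 : Continuous Jr := by
      unfold Jr
      exact Complex.continuous_re.comp (hA.1.continuous.comp (by fun_prop))
    have h2 : Continuous fun x : ℝ => (Sc (-(I * (x : ℂ)))).re :=
      Complex.continuous_re.comp (hA.2.1.continuous.comp (by fun_prop))
    have h3 : ContinuousOn Ld (Ioi 0) := by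
      unfold Ld
      refine ContinuousOn.sub (ContinuousOn.neg ?_) continuousOn_const
      refine ContinuousOn.log (by fun_prop) fun x hx => ?_
      have : (0 : ℝ) < x := hx
      positivity
    unfold Yr
    exact (h3.mul h1.continuousOn).add h2.continuousOn

end Pool.Agent.Helper89.EC.I_JY
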